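import Pool.Agent.H23.DM.TargetsA
import Pool.Agent.H27.TM.TargetsA
import Pool.Agent.H23.LC.Targets
import Pool.Agent.H23.LB.Targets
import Pool.Agent.H23.GLB.Avg

/-!
# The twelfth moment in the whole conductor: the theorem
-/

set_option autoImplicit false

open NumberField NumberField.InfinitePlace NumberField.Units
  NumberField.Units.dirichletUnitTheorem MeasureTheory Set Filter Complex
open scoped nonZeroDivisors ENNReal

namespace Pool.Agent.H46.DM.FI

open Pool.Agent.H25.HK Pool.Agent.H23.LB Pool.Agent.H23.LC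
open Pool.Agent.H31.SW (PP dK)
open Pool.Agent.H31.SX (LK)
open Pool.Agent.H29.DW (PrG IsCon)
open Pool.Agent.H23.DM
open Pool.Agent.H27.TM (InT Sp1)

section NF

variable {K : Type} [Field K] [NumberField K] {f : Ideal (𝓞 K)}

private lemma cont_L {L : ℂ → ℂ} (h : ∀ s : ℂ, s ≠ 0 → s ≠ 1 → DifferentiableAt ℂ L s) :
    Continuous fun t : ℝ => L (1 / 2 + t * I) := by
  rw [continuous_iff_continuousAt]
  intro t
  have h0 : (1 / 2 + t * I : ℂ) ≠ 0 := by
    intro hh
    have := congrArg Complex.re hh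
    simp at this
  have h1 : (1 / 2 + t * I : ℂ) ≠ 1 := by
    intro hh
    have := congrArg Complex.re hh
    simp at this
  exact ContinuousAt.comp (f := fun t : ℝ => (1 / 2 + t * I : ℂ)) (h _ h0 h1).continuousAt
    (by fun_prop)

private lemma disc_ge : 1 ≤ |(discr K : ℝ)| := by
  have h : (1 : ℤ) ≤ |discr K| := Int.one_le_abs (discr_ne_zero K)
  have h2 : ((1 : ℤ) : ℝ) ≤ ((|discr K| : ℤ) : ℝ) := by exact_mod_cast h
  simpa using h2

private lemma Nf_ge (hf : f ≠ ⊥) : 1 ≤ (Ideal.absNorm f : ℝ) := by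
  have h : Ideal.absNorm f ≠ 0 := fun h => hf (Ideal.absNorm_eq_zero_iff.1 h)
  exact_mod_cast Nat.one_le_iff_ne_zero.2 h

private lemma one_le_PPT {T : InfinitePlace K → ℝ} (hT : ∀ v, 1 ≤ T v) : 1 ≤ PP T := by
  unfold PP
  have h : ∏ v : InfinitePlace K, (1 : ℝ) ≤ ∏ v : InfinitePlace K, T v ^ v.mult :=
    Finset.prod_le_prod (fun _ _ => zero_le_one) fun v _ => one_le_pow₀ (hT v)
  simpa using h

private lemma sum_pairs (S : Finset (HG K f)) (P : HG K f → Finset ℝ) (F : HG K f → ℝ → ℝ) :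
    ∃ S' : Finset (HG K f × ℝ), (∀ q, q ∈ S' ↔ q.1 ∈ S ∧ q.2 ∈ P q.1) ∧
      ∑ q ∈ S', F q.1 q.2 = ∑ χ ∈ S, ∑ t ∈ P χ, F χ t := by
  have hinj : Function.Injective (fun x : (_ : HG K f) × ℝ => (x.1, x.2)) := by
    rintro ⟨a, b⟩ ⟨c, d⟩ h
    have h1 := congrArg Prod.fst h
    have h2 := congrArg Prod.snd h
    change a = c at h1
    change b = d at h2
    subst h1
    subst h2
    rfl
  refine ⟨(S.sigma P).map ⟨_, hinj⟩, fun q => ?_, ?_⟩
  · rw [Finset.mem_map]
    constructor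
    · rintro ⟨x, hx, rfl⟩
      rw [Finset.mem_sigma] at hx
      exact hx
    · intro hq
      exact ⟨⟨q.1, q.2⟩, Finset.mem_sigma.2 hq, rfl⟩
  · rw [Finset.sum_map, Finset.sum_sigma]
    rfl

end NF

/-- (FI) the theorem. -/
theorem pf_FI (hTM : D_TM) (hFK : U_FK) (hFG : U_FG) (hSY : T_SY) : D_FI := by
  intro m hm
  obtain ⟨B, hB, h⟩ := hTM m hm
  refine ⟨B, fun ε hε => ?_⟩
  have hm0 : (0 : ℝ) < m := by exact_mod_cast hm
  set e₁ : ℝ := min ε 1 with he₁
  have he10 : 0 < e₁ := lt_min hε one_pos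
  have he11 : e₁ ≤ 1 := min_le_right _ _
  have he1ε : e₁ ≤ ε := min_le_left _ _
  obtain ⟨C₁, hC₁, h1⟩ := h e₁ he10 he11
  set C₃ : ℝ := C₁ * (4 : ℝ) ^ (m * (2 + e₁)) with hC₃
  have hC₃0 : 0 ≤ C₃ := by positivity
  refine ⟨max C₁ C₃, ?_⟩
  intro K _ _ hK l k hlk
  classical
  have hl : l ≠ ⊥ := hlk.l_ne
  have hk : k ≠ ⊥ := hlk.k_ne
  have hf : l * k ≠ ⊥ := by
    rw [← Ideal.zero_eq_bot]
    exact mul_ne_zero hl hk
  have hrad : k.radical ≠ ⊥ := fun h => hk (le_bot_iff.1 (h ▸ Ideal.le_radical))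
  obtain ⟨Y⟩ := hSY K (l * k) hf
  choose L hL hLd using fun χ : HG K (l * k) => hFK K (l * k) hf Y χ
  have hd := disc_ge (K := K)
  have hNl := Nf_ge hl
  have hNk := Nf_ge hk
  have hNr := Nf_ge hrad
  set Q : ℝ := (|(discr K : ℝ)| * Ideal.absNorm l * Ideal.absNorm k.radical) ^ B with hQ
  have hQ0 : 0 ≤ Q := by positivity
  have eQ : (dK K * (Nf K l * Nf K k.radical)) ^ B = Q := by
    rw [hQ, mul_assoc]
    rfl
  refine ⟨L, fun χ => ⟨(hL χ).1, (hL χ).2.1, hLd χ⟩, ?_, ?_⟩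
  · intro T S hT hSP hS1 hS2
    have h3 := h1 K hK l k hlk Y L hL T S hT hSP hS2 hS1
    refine h3.trans ?_
    have hP := one_le_PPT hT
    have e : (∏ v, T v ^ v.mult) = PP T := rfl
    rw [e, eQ, ← mul_assoc]
    have e2 : Nf K k = (Ideal.absNorm k : ℝ) := rfl
    rw [e2]
    have h4 : ((Ideal.absNorm k : ℝ) * PP T) ^ (2 + e₁) ≤
        ((Ideal.absNorm k : ℝ) * PP T) ^ (2 + ε) :=
      Real.rpow_le_rpow_of_exponent_le (one_le_mul_of_one_le_of_one_le hNk hP) (by linarith)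
    have h5 : C₁ ≤ max C₁ C₃ := le_max_left _ _
    have h6 : 0 ≤ ((Ideal.absNorm k : ℝ) * PP T) ^ (2 + ε) := by positivity
    exact mul_le_mul (mul_le_mul_of_nonneg_right h5 hQ0) h4 (by positivity)
      (mul_nonneg (hC₁.trans h5) hQ0)
  · intro T hT
    have hT0 : 0 < T := by linarith
    have hfin := hFG K (l * k) T hf hT
    have hfin' : {χ : HG K (l * k) | χ ∈ box K (l * k) T ∧ PrG k χ}.Finite :=
      hfin.subset fun χ hχ => hχ.1
    refine ⟨hfin, ?_⟩
    set S : Finset (HG K (l * k)) := hfin'.toFinset with hS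
    have hSm : ∀ χ, χ ∈ S ↔ χ ∈ box K (l * k) T ∧ PrG k χ := fun χ => hfin'.mem_toFinset
    set M : ℝ := C₃ * Q * ((Ideal.absNorm k : ℝ) * T ^ m) ^ (2 + ε) with hM
    have hM0 : 0 ≤ M := by positivity
    have hMC : M ≤ max C₁ C₃ * Q * ((Ideal.absNorm k : ℝ) * T ^ m) ^ (2 + ε) := by
      rw [hM]
      have : C₃ ≤ max C₁ C₃ := le_max_right _ _
      gcongr
    -- separated points
    have hsepr : ∀ P : HG K (l * k) → Finset ℝ,
        (∀ χ, ∀ t ∈ P χ, |t| ≤ T ∧ ∀ t' ∈ P χ, t ≠ t' → 1 ≤ |t - t'|) →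
        ∑ χ ∈ S, ∑ t ∈ P χ, ‖L χ (1 / 2 + t * I)‖ ^ 12 ≤ M := by
      intro P hP
      obtain ⟨S', hS', e1⟩ := sum_pairs S P (fun χ t => ‖L χ (1 / 2 + t * I)‖ ^ 12)
      rw [← e1]
      have hT4 : ∀ v : InfinitePlace K, 1 ≤ (fun _ : InfinitePlace K => 4 * T) v := by
        intro v
        show 1 ≤ 4 * T
        linarith
      have h3 := h1 K hK l k hlk Y L hL (fun _ => 4 * T) S' hT4 ?_ ?_ ?_
      · refine h3.trans ?_
        have hPP : PP (fun _ : InfinitePlace K => 4 * T) = (4 * T) ^ m := by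
          unfold PP
          rw [Finset.prod_pow_eq_pow_sum, NumberField.InfinitePlace.sum_mult_eq, hK]
        have e2 : Nf K k = (Ideal.absNorm k : ℝ) := rfl
        rw [hPP, eQ, e2, hM, hC₃]
        have h4 : ((Ideal.absNorm k : ℝ) * (4 * T) ^ m) ^ (2 + e₁) ≤
            (4 : ℝ) ^ (m * (2 + e₁)) * ((Ideal.absNorm k : ℝ) * T ^ m) ^ (2 + ε) := by
          have e3 : (Ideal.absNorm k : ℝ) * (4 * T) ^ m =
              (4 : ℝ) ^ (m : ℝ) * ((Ideal.absNorm k : ℝ) * T ^ m) := by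
            rw [Real.rpow_natCast, mul_pow]
            ring
          rw [e3, Real.mul_rpow (by positivity) (by positivity), ← Real.rpow_mul (by norm_num)]
          refine mul_le_mul_of_nonneg_left ?_ (by positivity)
          refine Real.rpow_le_rpow_of_exponent_le
            (one_le_mul_of_one_le_of_one_le hNk (one_le_pow₀ hT)) (by linarith)
        calc C₁ * (Q * ((Ideal.absNorm k : ℝ) * (4 * T) ^ m) ^ (2 + e₁))
            ≤ C₁ * (Q * ((4 : ℝ) ^ (m * (2 + e₁)) *
              ((Ideal.absNorm k : ℝ) * T ^ m) ^ (2 + ε))) := by gcongr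
          _ = _ := by ring
      · intro x hq
        exact ((hSm x.1).1 ((hS' x).1 hq).1).2
      · intro x hq v
        have hx := (hS' x).1 hq
        have hb := ((hSm x.1).1 hx.1).1
        have h5 := (hb v).1
        have h6 := (hb v).2
        have h7 := (hP x.1 x.2 hx.2).1
        show 1 + |x.2 - x.1.ν v| + |(x.1.k v : ℝ)| ≤ 4 * T
        have h8 := abs_sub x.2 (x.1.ν v)
        linarith
      · intro p hp q hq hpq hne
        have hx := (hS' p).1 hp
        have hy := (hS' q).1 hq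
        rw [← hpq] at hy
        exact (hP p.1 p.2 hx.2).2 q.2 hy.2 hne
    have hsep : ∀ P : HG K (l * k) → Finset ℝ,
        (∀ χ, ∀ t ∈ P χ, |t| ≤ T ∧ ∀ t' ∈ P χ, t ≠ t' → 1 ≤ |t - t'|) →
        ∑ χ ∈ S, ∑ t ∈ P χ, ENNReal.ofReal (‖L χ (1 / 2 + t * I)‖ ^ 12) ≤
          ENNReal.ofReal M := by
      intro P hP
      have e : ∑ χ ∈ S, ∑ t ∈ P χ, ENNReal.ofReal (‖L χ (1 / 2 + t * I)‖ ^ 12) =
          ENNReal.ofReal (∑ χ ∈ S, ∑ t ∈ P χ, ‖L χ (1 / 2 + t * I)‖ ^ 12) := by
        rw [ENNReal.ofReal_sum_of_nonneg (fun χ _ => Finset.sum_nonneg fun t _ => by positivity)]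
        refine Finset.sum_congr rfl fun χ _ => ?_
        rw [ENNReal.ofReal_sum_of_nonneg (fun t _ => by positivity)]
      rw [e]
      exact ENNReal.ofReal_le_ofReal (hsepr P hP)
    -- the integral
    have hLc : ∀ χ : HG K (l * k), Continuous fun t : ℝ => L χ (1 / 2 + t * I) := fun χ =>
      cont_L (hL χ).2.1
    have hmeas : ∀ χ : HG K (l * k), Measurable fun t : ℝ =>
        ENNReal.ofReal (‖L χ (1 / 2 + t * I)‖ ^ 12) := fun χ =>
      ENNReal.measurable_ofReal.comp ((hLc χ).norm.pow 12).measurable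
    have hint : ∑ χ ∈ S, ∫⁻ t in Icc (-T) T, ENNReal.ofReal (‖L χ (1 / 2 + t * I)‖ ^ 12) ≤
        ENNReal.ofReal M := by
      rw [← lintegral_finsetSum _ (fun χ _ => hmeas χ)]
      refine Pool.Agent.H23.GLB.avg T _ (Finset.measurable_sum _ fun χ _ => hmeas χ) _ ?_
      intro P hP hPT
      rw [Finset.sum_comm]
      exact hsep (fun _ => P) (fun χ t ht => ⟨hPT t ht, fun t' ht' hne => hP t ht t' ht' hne⟩)
    refine ⟨?_, ?_⟩
    · rw [finsum_mem_eq_finite_toFinset_sum _ hfin']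
      refine le_trans ?_ hMC
      have e : ∀ χ : HG K (l * k), ∫ t in (-T)..T, ‖L χ (1 / 2 + t * I)‖ ^ 12 =
          (∫⁻ t in Icc (-T) T, ENNReal.ofReal (‖L χ (1 / 2 + t * I)‖ ^ 12)).toReal := by
        intro χ
        rw [intervalIntegral.integral_of_le (by linarith), ← integral_Icc_eq_integral_Ioc]
        have hc2 : Continuous fun t : ℝ => ‖L χ (1 / 2 + t * I)‖ ^ 12 := (hLc χ).norm.pow 12
        rw [integral_eq_lintegral_of_nonneg_ae (Filter.Eventually.of_forall fun t => by positivity)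
          hc2.aestronglyMeasurable]
      have hfi : ∀ χ ∈ S, ∫⁻ t in Icc (-T) T, ENNReal.ofReal (‖L χ (1 / 2 + t * I)‖ ^ 12) ≠ ⊤ := by
        intro χ hχ
        have := (Finset.single_le_sum (f := fun χ => ∫⁻ t in Icc (-T) T,
          ENNReal.ofReal (‖L χ (1 / 2 + t * I)‖ ^ 12)) (fun _ _ => zero_le) hχ).trans hint
        exact ne_top_of_le_ne_top ENNReal.ofReal_ne_top this
      simp_rw [e]
      rw [← ENNReal.toReal_sum hfi]
      exact ENNReal.toReal_le_of_le_ofReal hM0 hint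
    · intro V hV
      have hV2 : 0 < V ^ 12 := by positivity
      constructor
      · -- the number of the exceptional characters
        set A : Set (HG K (l * k)) := {χ | χ ∈ box K (l * k) T ∧ PrG k χ ∧
          ∃ t : ℝ, |t| ≤ T ∧ V < ‖L χ (1 / 2 + t * I)‖} with hA
        have hAf : A.Finite := hfin.subset fun χ hχ => hχ.1
        have hex : ∀ χ : HG K (l * k), ∃ t : ℝ, χ ∈ A → |t| ≤ T ∧ V < ‖L χ (1 / 2 + t * I)‖ := by
          intro χ
          by_cases h : χ ∈ A
          · obtain ⟨t, ht⟩ := h.2.2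
            exact ⟨t, fun _ => ht⟩
          · exact ⟨0, fun hh => absurd hh h⟩
        choose τ hτ using hex
        have h1 := hsepr (fun χ => if χ ∈ A then {τ χ} else ∅) (by
          intro χ t ht
          by_cases h : χ ∈ A
          · rw [if_pos h, Finset.mem_singleton] at ht
            subst ht
            refine ⟨(hτ χ h).1, fun t' ht' hne => ?_⟩
            rw [if_pos h, Finset.mem_singleton] at ht'
            exact absurd ht'.symm hne
          · rw [if_neg h] at ht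
            exact absurd ht (Finset.notMem_empty t))
        have h2 : (A.ncard : ℝ) * V ^ 12 ≤
            ∑ χ ∈ S, ∑ t ∈ (if χ ∈ A then {τ χ} else ∅ : Finset ℝ),
              ‖L χ (1 / 2 + t * I)‖ ^ 12 := by
          calc (A.ncard : ℝ) * V ^ 12 = ∑ _χ ∈ hAf.toFinset, V ^ 12 := by
                rw [Finset.sum_const, nsmul_eq_mul, Set.ncard_eq_toFinset_card _ hAf]
            _ ≤ ∑ χ ∈ hAf.toFinset, ∑ t ∈ (if χ ∈ A then {τ χ} else ∅ : Finset ℝ),
                ‖L χ (1 / 2 + t * I)‖ ^ 12 := by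
                refine Finset.sum_le_sum fun χ hχ => ?_
                have hχA : χ ∈ A := hAf.mem_toFinset.1 hχ
                rw [if_pos hχA, Finset.sum_singleton]
                exact pow_le_pow_left₀ hV.le (hτ χ hχA).2.le 12
            _ ≤ _ := by
                refine Finset.sum_le_sum_of_subset_of_nonneg ?_
                  (fun χ _ _ => Finset.sum_nonneg fun t _ => by positivity)
                intro χ hχ
                exact (hSm χ).2 ⟨(hAf.mem_toFinset.1 hχ).1, (hAf.mem_toFinset.1 hχ).2.1⟩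
        rw [le_div_iff₀ hV2]
        exact (h2.trans h1).trans hMC
      · -- the measure
        rw [finsum_mem_eq_finite_toFinset_sum _ hfin']
        have hch : ∀ χ : HG K (l * k), ENNReal.ofReal (V ^ 12) *
            volume {t : ℝ | |t| ≤ T ∧ V < ‖L χ (1 / 2 + t * I)‖} ≤
            ∫⁻ t in Icc (-T) T, ENNReal.ofReal (‖L χ (1 / 2 + t * I)‖ ^ 12) := by
          intro χ
          refine le_trans ?_ (mul_meas_ge_le_lintegral (hmeas χ) (ENNReal.ofReal (V ^ 12)))
          refine mul_le_mul_right ?_ _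
          rw [Measure.restrict_apply (measurableSet_le measurable_const (hmeas χ))]
          refine measure_mono fun t ht => ⟨?_, abs_le.1 ht.1⟩
          exact ENNReal.ofReal_le_ofReal (pow_le_pow_left₀ hV.le ht.2.le 12)
        have hfi : ∀ χ ∈ S, volume {t : ℝ | |t| ≤ T ∧ V < ‖L χ (1 / 2 + t * I)‖} ≠ ⊤ := by
          intro χ _
          refine ne_top_of_le_ne_top (b := volume (Icc (-T) T)) (by simp)
            (measure_mono fun t ht => ?_)
          exact abs_le.1 ht.1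
        rw [← ENNReal.toReal_sum hfi, le_div_iff₀ hV2]
        refine le_trans ?_ hMC
        have h3 : ENNReal.ofReal (V ^ 12) * ∑ χ ∈ S,
            volume {t : ℝ | |t| ≤ T ∧ V < ‖L χ (1 / 2 + t * I)‖} ≤ ENNReal.ofReal M := by
          rw [Finset.mul_sum]
          exact (Finset.sum_le_sum fun χ _ => hch χ).trans hint
        have h4 := ENNReal.toReal_le_of_le_ofReal hM0 h3
        rw [ENNReal.toReal_mul, ENNReal.toReal_ofReal hV2.le] at h4
        linarith

end Pool.Agent.H46.DM.FI
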